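import Pool.Agent.Helper74.NM.St

set_option autoImplicit false

namespace Pool.Agent.Helper42.NM

open Pool.Agent.Helper74 Pool.Agent.Helper74.NM

section

variable {W : Type} (rk : W → Bool)

/-- the letters `e g s, .., e g (s + m - 1), y g` -/
private def D (g : W × List W) (s m : ℕ) : List (Lt W) := (List.range' s m).map (.e g) ++ [.y g]

private theorem D_zero (g : W × List W) (s : ℕ) : D g s 0 = [.y g] := rfl

private theorem D_succ (g : W × List W) (s m : ℕ) : D g s (m + 1) = .e g s :: D g (s + 1) m := by
  unfold D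
  rw [List.range'_succ]
  rfl

private theorem tr_o (L : List (Zt W)) : ∀ σ τ : List (Lt W),
    Tr (P rk) op (L.map .o) σ τ ↔ τ = (L.map .o).reverse ++ σ := by
  induction L with
  | nil =>
    intro σ τ
    rw [List.map_nil, tr_nil]
    simp [eq_comm]
  | cons z L ih =>
    intro σ τ
    rw [List.map_cons, tr_cons, ih]
    constructor
    · rintro (⟨-, h⟩ | ⟨x, σ', -, h, -⟩)
      · rw [h]
        simp
      · exact absurd h (not_p_o rk x z)
    · intro h
      refine Or.inl ⟨trivial, ?_⟩
      rw [h]
      simp

private theorem tr_up (g : W × List W) (σ τ : List (Lt W)) :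
    Tr (P rk) op (gB rk g) σ τ ↔
      Tr (P rk) op (D g 0 (Us rk g).length) ((Us rk g).map .o ++ σ) τ := by
  unfold gB
  rw [tr_append]
  have h0 : ((Us rk g).reverse.map Lt.o).reverse = (Us rk g).map Lt.o := by
    rw [List.map_reverse, List.reverse_reverse]
  have h1 : D g 0 (Us rk g).length =
      (((List.range (Us rk g).length).map (.e g)) ++ [.y g] : List (Lt W)) := by
    unfold D
    rw [List.range_eq_range']
  constructor
  · rintro ⟨ρ, h2, h3⟩
    rw [tr_o, h0] at h2
    rw [h1, ← h2]
    exact h3
  · intro h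
    refine ⟨(Us rk g).map .o ++ σ, ?_, ?_⟩
    · rw [tr_o, h0]
    · rw [← h1]
      exact h

private theorem part1 (g : W × List W) (σ : List (Lt W)) : ∀ (V : List (Zt W)) (j : ℕ),
    (∀ i : ℕ, i < V.length → (Us rk g)[j + i]? = V[i]?) →
    Tr (P rk) op (D g j V.length) (V.map .o ++ .x g :: σ) σ := by
  intro V
  induction V with
  | nil =>
    intro j _
    rw [List.length_nil, D_zero, tr_cons]
    refine Or.inr ⟨.x g, σ, rfl, ?_, ?_⟩
    · simp [P]
    · rw [tr_nil]
  | cons z V ih =>
    intro j h
    rw [List.length_cons, D_succ, tr_cons]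
    refine Or.inr ⟨.o z, V.map .o ++ .x g :: σ, rfl, ?_, ?_⟩
    · show (Us rk g)[j]? = some z
      have := h 0 (by simp)
      simpa using this
    · apply ih (j + 1)
      intro i hi
      have := h (i + 1) (by simpa using hi)
      rw [show j + 1 + i = j + (i + 1) by ring, this]
      simp

private theorem part2 (g : W × List W) (ρ : List (Lt W)) : ∀ (b a : ℕ),
    Tr (P rk) op (D g (2 * a + 1) (2 * b)) (.e g 0 :: ρ) ρ := by
  intro b
  induction b with
  | zero =>
    intro a
    rw [Nat.mul_zero, D_zero, tr_cons]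
    refine Or.inr ⟨.e g 0, ρ, rfl, ?_, ?_⟩
    · simp [P]
    · rw [tr_nil]
  | succ b ih =>
    intro a
    rw [show 2 * (b + 1) = 2 * b + 1 + 1 by ring, D_succ, D_succ, tr_cons]
    refine Or.inl ⟨Or.inr ⟨a, rfl⟩, ?_⟩
    rw [tr_cons]
    refine Or.inr ⟨.e g (2 * a + 1), .e g 0 :: ρ, rfl, ⟨rfl, rfl, ⟨a, rfl⟩⟩, ?_⟩
    exact ih (a + 1)

private theorem not_op_even (g : W × List W) (a : ℕ) : ¬ op (Lt.e g (2 * a + 1 + 1) : Lt W) := by
  rintro (h | h)
  · omega
  · rw [Nat.odd_iff] at h
    omega

private theorem part3 (g : W × List W) (ρ τ : List (Lt W)) : ∀ (b a : ℕ),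
    Tr (P rk) op (D g (2 * a + 1) (2 * b)) (.e g 0 :: ρ) τ → τ = ρ := by
  intro b
  induction b with
  | zero =>
    intro a h
    rw [Nat.mul_zero, D_zero, tr_cons] at h
    rcases h with ⟨h, -⟩ | ⟨x, σ', h1, -, h2⟩
    · exact absurd h id
    · rw [tr_nil] at h2
      rw [List.cons.injEq] at h1
      rw [← h2, ← h1.2]
  | succ b ih =>
    intro a h
    rw [show 2 * (b + 1) = 2 * b + 1 + 1 by ring, D_succ, D_succ, tr_cons] at h
    rcases h with ⟨-, h⟩ | ⟨x, σ', h1, h2, -⟩
    · rw [tr_cons] at h
      rcases h with ⟨h, -⟩ | ⟨x, σ', h1, -, h2⟩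
      · exact absurd h (not_op_even g a)
      · rw [List.cons.injEq] at h1
        rw [← h1.2] at h2
        exact ih (a + 1) h2
    · rw [List.cons.injEq] at h1
      rw [← h1.1] at h2
      obtain ⟨-, -, h3⟩ := h2
      rw [Nat.odd_iff] at h3
      omega

private theorem part4 (g : W × List W) (σ τ : List (Lt W)) (hσ : clean σ) : ∀ (r a m : ℕ)
    (V : List (Zt W)), V.length = 2 * m → r ≤ m →
    Tr (P rk) op (D g (2 * a + 1) (2 * r)) (V.map .o ++ σ) τ → V.length = 2 * r ∧ σ = .x g :: τ := by
  intro r
  induction r with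
  | zero =>
    intro a m V _ _ h
    rw [Nat.mul_zero, D_zero, tr_cons] at h
    rcases h with ⟨h, -⟩ | ⟨x, σ', h1, h2, h3⟩
    · exact absurd h id
    · rw [tr_nil] at h3
      subst h3
      cases V with
      | nil =>
        rw [List.map_nil, List.nil_append] at h1
        refine ⟨rfl, ?_⟩
        rw [h1]
        rcases hσ x (by rw [h1]; exact List.mem_cons_self) with ⟨z, rfl⟩ | ⟨g', rfl⟩
        · exact absurd h2 id
        · have h4 : g' = g := h2
          rw [h4]
      | cons z V =>
        exfalso
        rw [List.map_cons, List.cons_append, List.cons.injEq] at h1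
        rw [← h1.1] at h2
        exact h2
  | succ r ih =>
    intro a m V hV hm h
    rw [show 2 * (r + 1) = 2 * r + 1 + 1 by ring, D_succ, D_succ, tr_cons] at h
    rcases h with ⟨-, h⟩ | ⟨x, σ', h1, -, h⟩
    · exfalso
      rw [tr_cons] at h
      rcases h with ⟨h, -⟩ | ⟨x, σ', h1, -, h2⟩
      · exact absurd h (not_op_even g a)
      · rw [List.cons.injEq] at h1
        rw [← h1.2] at h2
        have := (ih (a + 1) m V hV (by omega) h2).1
        omega
    · cases V with
      | nil =>
        exfalso
        rw [List.length_nil] at hV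
        omega
      | cons z V =>
        rw [List.map_cons, List.cons_append, List.cons.injEq] at h1
        rw [← h1.2, tr_cons] at h
        rcases h with ⟨h, -⟩ | ⟨x, σ', h1, -, h2⟩
        · exact absurd h (not_op_even g a)
        · cases V with
          | nil =>
            exfalso
            rw [List.length_cons, List.length_nil] at hV
            omega
          | cons z' V =>
            rw [List.map_cons, List.cons_append, List.cons.injEq] at h1
            rw [← h1.2] at h2
            rw [List.length_cons, List.length_cons] at hV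
            have h5 := ih (a + 1) (m - 1) V (by omega) (by omega) h2
            refine ⟨?_, h5.2⟩
            rw [List.length_cons, List.length_cons]
            omega

end

theorem hGB : StGB := by
  intro W rk g σ
  have hlen := us_length rk g
  refine ⟨?_, ?_, ?_⟩
  · rw [tr_up]
    apply part1
    intro i _
    rw [Nat.zero_add]
  · rw [tr_up, hlen, D_succ, tr_cons]
    exact Or.inl ⟨Or.inl rfl, part2 rk g _ g.2.length 0⟩
  · intro hσ τ h
    rw [tr_up, hlen, D_succ, tr_cons] at h
    rcases h with ⟨-, h⟩ | ⟨x, σ', h1, -, h⟩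
    · exact Or.inl (part3 rk g _ τ g.2.length 0 h)
    · right
      cases hU : Us rk g with
      | nil =>
        rw [hU] at hlen
        simp at hlen
      | cons z V =>
        rw [hU, List.map_cons, List.cons_append, List.cons.injEq] at h1
        rw [← h1.2] at h
        rw [hU, List.length_cons] at hlen
        exact (part4 rk g σ τ hσ g.2.length 0 g.2.length V (by omega) le_rfl h).2

end Pool.Agent.Helper42.NM
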